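import Mathlib

/-!
Project XM (MP_bd3c72_lc), module C: polynomials of degree at most `k` over `F_2` are determined by
their values on the points of weight at most `k`, and by those on the points of weight at least
`n - k`.
-/

open Finset

namespace Pool.Agent.XMC

/-- the monomial of the set `S` -/
def mon {n : ℕ} (S : Finset (Fin n)) (x : Fin n → ZMod 2) : ZMod 2 := ∏ i ∈ S, x i

/-- the multilinear polynomial with coefficients `c` -/
def ev {n : ℕ} (c : Finset (Fin n) → ZMod 2) (x : Fin n → ZMod 2) : ZMod 2 := ∑ S, c S * mon S x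

/-- weight of a point -/
def wt {n : ℕ} (x : Fin n → ZMod 2) : ℕ := (univ.filter (fun i => x i = 1)).card

/-- the indicator point of a set -/
def pt {n : ℕ} (T : Finset (Fin n)) : Fin n → ZMod 2 := fun i => if i ∈ T then 1 else 0

theorem wt_pt {n : ℕ} (T : Finset (Fin n)) : wt (pt T) = T.card := by
  unfold wt pt
  congr 1
  ext i
  simp

theorem mon_pt {n : ℕ} (S T : Finset (Fin n)) : mon S (pt T) = if S ⊆ T then 1 else 0 := by
  unfold mon pt
  split_ifs with h
  · exact Finset.prod_eq_one fun i hi => if_pos (h hi)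
  · obtain ⟨i, hi, hiT⟩ := Finset.not_subset.mp h
    exact Finset.prod_eq_zero hi (if_neg hiT)

theorem ev_pt {n : ℕ} (c : Finset (Fin n) → ZMod 2) (T : Finset (Fin n)) :
    ev c (pt T) = ∑ S ∈ T.powerset, c S := by
  unfold ev
  rw [← Finset.sum_filter_add_sum_filter_not univ (fun S => S ⊆ T)]
  have h1 : ∑ S ∈ univ.filter (fun S => ¬ S ⊆ T), c S * mon S (pt T) = 0 := by
    refine Finset.sum_eq_zero fun S hS => ?_
    rw [mon_pt, if_neg (Finset.mem_filter.mp hS).2, mul_zero]
  rw [h1, add_zero]
  refine Finset.sum_congr ?_ fun S hS => ?_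
  · ext S; simp
  · rw [mon_pt, if_pos (Finset.mem_powerset.mp hS), mul_one]

/-- every point is an indicator -/
theorem eq_pt {n : ℕ} (x : Fin n → ZMod 2) : x = pt (univ.filter (fun i => x i = 1)) := by
  funext i
  unfold pt
  simp only [Finset.mem_filter, Finset.mem_univ, true_and]
  split_ifs with h
  · exact h
  · have : ∀ a : ZMod 2, a ≠ 1 → a = 0 := by decide
    exact this _ h

/-- (C1) lower half -/
theorem ev_inj_low {n k : ℕ} {c : Finset (Fin n) → ZMod 2} (hc : ∀ S, k < S.card → c S = 0)
    (h : ∀ x, wt x ≤ k → ev c x = 0) : c = 0 := by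
  funext S
  induction S using Finset.strongInduction with
  | H S ih =>
    by_cases hS : k < S.card
    · exact hc S hS
    · have h1 := h (pt S) (by rw [wt_pt]; exact not_lt.mp hS)
      rw [ev_pt, ← Finset.sum_erase_add _ _ (Finset.mem_powerset_self S)] at h1
      have h2 : ∑ R ∈ S.powerset.erase S, c R = 0 := by
        refine Finset.sum_eq_zero fun R hR => ?_
        have hR' := Finset.mem_erase.mp hR
        exact ih R (Finset.ssubset_iff_subset_ne.mpr ⟨Finset.mem_powerset.mp hR'.2, hR'.1⟩)
      rw [h2, zero_add] at h1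
      exact h1

/-- complement -/
def cpl {n : ℕ} (x : Fin n → ZMod 2) : Fin n → ZMod 2 := fun i => 1 + x i

/-- coefficients of `x ↦ ev c (1 + x)` -/
def up {n : ℕ} (c : Finset (Fin n) → ZMod 2) (R : Finset (Fin n)) : ZMod 2 :=
  ∑ S ∈ univ.filter (fun S => R ⊆ S), c S

theorem mon_cpl {n : ℕ} (S : Finset (Fin n)) (x : Fin n → ZMod 2) :
    mon S (cpl x) = ∑ R ∈ S.powerset, mon R x := by
  unfold mon cpl
  exact Finset.prod_one_add S

theorem ev_cpl {n : ℕ} (c : Finset (Fin n) → ZMod 2) (x : Fin n → ZMod 2) :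
    ev c (cpl x) = ev (up c) x := by
  unfold ev up
  simp only [mon_cpl, Finset.mul_sum, Finset.sum_mul]
  rw [Finset.sum_sigma', Finset.sum_sigma']
  refine Finset.sum_bij' (fun p _ => ⟨p.2, p.1⟩) (fun p _ => ⟨p.2, p.1⟩) ?_ ?_ ?_ ?_ ?_
  · rintro ⟨S, R⟩ h
    simpa using h
  · rintro ⟨S, R⟩ h
    simpa using h
  · rintro ⟨S, R⟩ _; rfl
  · rintro ⟨S, R⟩ _; rfl
  · rintro ⟨S, R⟩ _; rfl

theorem up_supp {n k : ℕ} {c : Finset (Fin n) → ZMod 2} (hc : ∀ S, k < S.card → c S = 0) :
    ∀ S, k < S.card → up c S = 0 := by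
  intro S hS
  unfold up
  refine Finset.sum_eq_zero fun R hR => hc R ?_
  exact hS.trans_le (Finset.card_le_card (Finset.mem_filter.mp hR).2)

theorem up_inj {n : ℕ} {c : Finset (Fin n) → ZMod 2} (h : up c = 0) : c = 0 := by
  -- downward induction on the size
  have key : ∀ m : ℕ, ∀ S : Finset (Fin n), n - S.card < m → c S = 0 := by
    intro m
    induction m with
    | zero => intro S hS; omega
    | succ m ih =>
      intro S hS
      have h1 : up c S = 0 := by rw [h]; rfl
      unfold up at h1
      have hmem : S ∈ univ.filter (fun R => S ⊆ R) := by simp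
      rw [← Finset.sum_erase_add _ _ hmem] at h1
      have h2 : ∑ R ∈ (univ.filter (fun R => S ⊆ R)).erase S, c R = 0 := by
        refine Finset.sum_eq_zero fun R hR => ih R ?_
        have hR' := Finset.mem_erase.mp hR
        have hsub : S ⊆ R := (Finset.mem_filter.mp hR'.2).2
        have hlt : S.card < R.card :=
          Finset.card_lt_card (Finset.ssubset_iff_subset_ne.mpr ⟨hsub, fun e => hR'.1 e.symm⟩)
        have hle : R.card ≤ n := by simpa using Finset.card_le_univ R
        omega
      rw [h2, zero_add] at h1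
      exact h1
  funext S
  exact key (n - S.card + 1) S (Nat.lt_succ_self _)

theorem wt_cpl {n : ℕ} (x : Fin n → ZMod 2) : wt (cpl x) + wt x = n := by
  unfold wt cpl
  have h1 : (univ.filter (fun i => 1 + x i = 1)) = univ.filter (fun i => ¬ x i = 1) := by
    ext i
    simp only [Finset.mem_filter, Finset.mem_univ, true_and]
    have : ∀ a : ZMod 2, 1 + a = 1 ↔ ¬ a = 1 := by decide
    exact this _
  rw [h1, add_comm, Finset.card_filter_add_card_filter_not]
  simp

/-- (C1) upper half -/
theorem ev_inj_high {n k : ℕ} {c : Finset (Fin n) → ZMod 2} (hc : ∀ S, k < S.card → c S = 0)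
    (h : ∀ x, n ≤ wt x + k → ev c x = 0) : c = 0 := by
  refine up_inj (ev_inj_low (k := k) (up_supp hc) fun x hx => ?_)
  rw [← ev_cpl]
  have := wt_cpl x
  exact h _ (by omega)

end Pool.Agent.XMC
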