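import Mathlib
import Pool.Agent.helper72.XM.Moebius

/-!
Project XM (MP_bd3c72_lc), module C: counting, and the invertible restriction matrices.
-/

open Finset

namespace Pool.Agent.XMC

/-- an injective square matrix is invertible -/
theorem exists_inv_of_inj {I X : Type} [Fintype I] [Fintype X] [DecidableEq I] [DecidableEq X]
    (hcard : Fintype.card I = Fintype.card X) (R : Matrix X I (ZMod 2))
    (hinj : ∀ c : I → ZMod 2, R.mulVec c = 0 → c = 0) :
    ∃ R' : Matrix I X (ZMod 2), R' * R = 1 ∧ R * R' = 1 := by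
  have h1 : Function.Injective (Matrix.toLin' R) := by
    rw [← LinearMap.ker_eq_bot, LinearMap.ker_eq_bot']
    intro c hc
    exact hinj c (by simpa using hc)
  have h2 : Module.finrank (ZMod 2) (I → ZMod 2) = Module.finrank (ZMod 2) (X → ZMod 2) := by
    rw [Module.finrank_fintype_fun_eq_card, Module.finrank_fintype_fun_eq_card, hcard]
  have h3 : Function.Surjective (Matrix.toLin' R) :=
    (LinearMap.injective_iff_surjective_of_finrank_eq_finrank h2).mp h1
  let e := LinearEquiv.ofBijective (Matrix.toLin' R) ⟨h1, h3⟩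
  have he : LinearMap.toMatrix' (e : (I → ZMod 2) →ₗ[ZMod 2] (X → ZMod 2)) = R := by
    have : (e : (I → ZMod 2) →ₗ[ZMod 2] (X → ZMod 2)) = Matrix.toLin' R := by
      ext; rfl
    rw [this]
    exact LinearMap.toMatrix'_toLin' R
  refine ⟨LinearMap.toMatrix' (e.symm : (X → ZMod 2) →ₗ[ZMod 2] (I → ZMod 2)), ?_, ?_⟩
  · conv_lhs => rw [← he]
    rw [← LinearMap.toMatrix'_comp, LinearEquiv.symm_comp, LinearMap.toMatrix'_id]
  · conv_lhs => rw [← he]
    rw [← LinearMap.toMatrix'_comp, LinearEquiv.comp_symm, LinearMap.toMatrix'_id]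

/-- points of weight at most `k` correspond to the sets of size at most `k` -/
theorem card_low (n k : ℕ) :
    Fintype.card {x : Fin n → ZMod 2 // wt x ≤ k} =
      Fintype.card {S : Finset (Fin n) // S.card ≤ k} := by
  symm
  refine Fintype.card_of_bijective (f := fun S => ⟨pt S.1, by rw [wt_pt]; exact S.2⟩) ⟨?_, ?_⟩
  · rintro ⟨S, hS⟩ ⟨T, hT⟩ h
    have h' : pt S = pt T := congrArg Subtype.val h
    refine Subtype.ext ?_
    ext i
    have := congrFun h' i
    unfold pt at this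
    by_cases h1 : i ∈ S <;> by_cases h2 : i ∈ T <;> simp_all
  · rintro ⟨x, hx⟩
    refine ⟨⟨univ.filter (fun i => x i = 1), hx⟩, ?_⟩
    exact Subtype.ext (eq_pt x).symm

theorem cpl_cpl {n : ℕ} (x : Fin n → ZMod 2) : cpl (cpl x) = x := by
  funext i
  unfold cpl
  have : ∀ a : ZMod 2, 1 + (1 + a) = a := by decide
  exact this _

theorem card_high_eq (n k : ℕ) (hk : k ≤ n) :
    Fintype.card {x : Fin n → ZMod 2 // n - k ≤ wt x} =
      Fintype.card {x : Fin n → ZMod 2 // wt x ≤ k} := by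
  refine Fintype.card_of_bijective (f := fun x => ⟨cpl x.1, by
    have := wt_cpl x.1
    have := x.2
    omega⟩) ⟨?_, ?_⟩
  · rintro ⟨x, hx⟩ ⟨y, hy⟩ h
    have h' : cpl x = cpl y := congrArg Subtype.val h
    refine Subtype.ext ?_
    have h2 : cpl (cpl x) = cpl (cpl y) := by rw [h']
    rw [cpl_cpl, cpl_cpl] at h2
    exact h2
  · rintro ⟨x, hx⟩
    refine ⟨⟨cpl x, ?_⟩, Subtype.ext (cpl_cpl x)⟩
    have := wt_cpl x
    omega

/-- for `n = 2 m - 1` both halves have `2 ^ (n - 1)` points -/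
theorem card_half (m : ℕ) (hm : 1 ≤ m) :
    Fintype.card {x : Fin (2 * m - 1) → ZMod 2 // wt x ≤ m - 1} = 2 ^ (2 * m - 2) := by
  have h1 := card_high_eq (2 * m - 1) (m - 1) (by omega)
  have h2 : Fintype.card {x : Fin (2 * m - 1) → ZMod 2 // 2 * m - 1 - (m - 1) ≤ wt x} =
      Fintype.card {x : Fin (2 * m - 1) → ZMod 2 // ¬ wt x ≤ m - 1} := by
    refine Fintype.card_congr (Equiv.subtypeEquivRight fun x => ?_)
    omega
  have h3 := Fintype.card_subtype_compl (fun x : Fin (2 * m - 1) → ZMod 2 => wt x ≤ m - 1)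
  have h4 : Fintype.card (Fin (2 * m - 1) → ZMod 2) = 2 ^ (2 * m - 1) := by
    rw [Fintype.card_fun, ZMod.card, Fintype.card_fin]
  have h5 : (2 : ℕ) ^ (2 * m - 1) = 2 * 2 ^ (2 * m - 2) := by
    rw [← pow_succ']
    congr 1
    omega
  have h6 := Fintype.card_subtype_le (fun x : Fin (2 * m - 1) → ZMod 2 => wt x ≤ m - 1)
  omega

theorem card_half_high (m : ℕ) (hm : 1 ≤ m) :
    Fintype.card {x : Fin (2 * m - 1) → ZMod 2 // m ≤ wt x} = 2 ^ (2 * m - 2) := by
  rw [← card_half m hm, ← card_high_eq (2 * m - 1) (m - 1) (by omega)]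
  refine Fintype.card_congr (Equiv.subtypeEquivRight fun x => ?_)
  omega

theorem card_sets (m : ℕ) (hm : 1 ≤ m) :
    Fintype.card {S : Finset (Fin (2 * m - 1)) // S.card ≤ m - 1} = 2 ^ (2 * m - 2) := by
  rw [← card_low, card_half m hm]

/-- evaluation of a coefficient vector indexed by the sets of size at most `k` -/
theorem ev_ext {n k : ℕ} (c : {S : Finset (Fin n) // S.card ≤ k} → ZMod 2) (x : Fin n → ZMod 2) :
    ∑ S, mon S.1 x * c S = ev (fun S => if h : S.card ≤ k then c ⟨S, h⟩ else 0) x := by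
  unfold ev
  rw [← Finset.sum_filter_add_sum_filter_not univ (fun S : Finset (Fin n) => S.card ≤ k)]
  have h1 : ∑ S ∈ univ.filter (fun S : Finset (Fin n) => ¬ S.card ≤ k),
      (if h : S.card ≤ k then c ⟨S, h⟩ else 0) * mon S x = 0 := by
    refine Finset.sum_eq_zero fun S hS => ?_
    rw [dif_neg (Finset.mem_filter.mp hS).2, zero_mul]
  rw [h1, add_zero, Finset.sum_subtype (univ.filter (fun S : Finset (Fin n) => S.card ≤ k))
    (p := fun S => S.card ≤ k) (by simp)]
  refine Finset.sum_congr rfl fun S _ => ?_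
  show mon S.1 x * c S = (if h : S.1.card ≤ k then c ⟨S.1, h⟩ else 0) * mon S.1 x
  rw [dif_pos S.2, mul_comm]

/-- restriction to the lower half -/
def RL (m : ℕ) : Matrix {x : Fin (2 * m - 1) → ZMod 2 // wt x ≤ m - 1}
    {S : Finset (Fin (2 * m - 1)) // S.card ≤ m - 1} (ZMod 2) := fun x S => mon S.1 x.1

/-- restriction to the upper half -/
def RH (m : ℕ) : Matrix {x : Fin (2 * m - 1) → ZMod 2 // m ≤ wt x}
    {S : Finset (Fin (2 * m - 1)) // S.card ≤ m - 1} (ZMod 2) := fun x S => mon S.1 x.1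

/-- (C2) the restriction matrix to the lower half is invertible -/
theorem exists_inv_low (m : ℕ) :
    ∃ R' : Matrix {S : Finset (Fin (2 * m - 1)) // S.card ≤ m - 1}
        {x : Fin (2 * m - 1) → ZMod 2 // wt x ≤ m - 1} (ZMod 2),
      R' * RL m = 1 ∧ RL m * R' = 1 := by
  refine exists_inv_of_inj (card_low _ _).symm _ fun c hc => ?_
  have h := ev_inj_low (n := 2 * m - 1) (k := m - 1)
    (c := fun S => if h : S.card ≤ m - 1 then c ⟨S, h⟩ else 0)
    (fun S hS => dif_neg (not_le.mpr hS)) ?_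
  · funext S
    have := congrFun h S.1
    simp only [dif_pos S.2] at this
    exact this
  · intro x hx
    rw [← ev_ext]
    exact congrFun hc ⟨x, hx⟩

/-- (C2) the restriction matrix to the upper half is invertible -/
theorem exists_inv_high (m : ℕ) (hm : 1 ≤ m) :
    ∃ R' : Matrix {S : Finset (Fin (2 * m - 1)) // S.card ≤ m - 1}
        {x : Fin (2 * m - 1) → ZMod 2 // m ≤ wt x} (ZMod 2),
      R' * RH m = 1 ∧ RH m * R' = 1 := by
  refine exists_inv_of_inj ((card_sets m hm).trans (card_half_high m hm).symm) _ fun c hc => ?_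
  have h := ev_inj_high (n := 2 * m - 1) (k := m - 1)
    (c := fun S => if h : S.card ≤ m - 1 then c ⟨S, h⟩ else 0)
    (fun S hS => dif_neg (not_le.mpr hS)) ?_
  · funext S
    have := congrFun h S.1
    simp only [dif_pos S.2] at this
    exact this
  · intro x hx
    rw [← ev_ext]
    exact congrFun hc ⟨x, by omega⟩

/-- (C3) number of the sets of size in `[m - D, m - 1]` -/
theorem card_layer (m D : ℕ) (hm : 1 ≤ m) :
    (univ.filter (fun S : Finset (Fin (2 * m - 1)) => m ≤ S.card + D ∧ S.card ≤ m - 1)).card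
      ≤ D * (2 * m - 1).choose m := by
  have h1 : (univ.filter (fun S : Finset (Fin (2 * m - 1)) => m ≤ S.card + D ∧ S.card ≤ m - 1))
      ⊆ (Finset.Ico (m - D) m).biUnion (fun i => Finset.powersetCard i univ) := by
    intro S hS
    rw [Finset.mem_filter] at hS
    rw [Finset.mem_biUnion]
    refine ⟨S.card, Finset.mem_Ico.mpr ⟨by omega, by omega⟩, ?_⟩
    rw [Finset.mem_powersetCard]
    exact ⟨Finset.subset_univ _, rfl⟩
  have h2 : (2 * m - 1).choose ((2 * m - 1) / 2) = (2 * m - 1).choose m := by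
    have : (2 * m - 1) / 2 = 2 * m - 1 - m := by omega
    rw [this]
    exact Nat.choose_symm (by omega)
  calc _ ≤ _ := Finset.card_le_card h1
    _ ≤ ∑ i ∈ Finset.Ico (m - D) m, (Finset.powersetCard i
          (univ : Finset (Fin (2 * m - 1)))).card := Finset.card_biUnion_le
    _ = ∑ i ∈ Finset.Ico (m - D) m, (2 * m - 1).choose i := by
        refine Finset.sum_congr rfl fun i _ => ?_
        rw [Finset.card_powersetCard, Finset.card_univ, Fintype.card_fin]
    _ ≤ ∑ _i ∈ Finset.Ico (m - D) m, (2 * m - 1).choose m := by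
        refine Finset.sum_le_sum fun i _ => ?_
        rw [← h2]
        exact Nat.choose_le_middle i (2 * m - 1)
    _ = (m - (m - D)) * (2 * m - 1).choose m := by
        rw [Finset.sum_const, Nat.card_Ico, smul_eq_mul]
    _ ≤ D * (2 * m - 1).choose m := Nat.mul_le_mul_right _ (by omega)

/-- `centralBinom m ^ 2 * (3 m + 1) ≤ 16 ^ m` -/
theorem central_sq (m : ℕ) : (Nat.centralBinom m) ^ 2 * (3 * m + 1) ≤ 16 ^ m := by
  induction m with
  | zero => simp
  | succ m ih =>
    have h1 := Nat.succ_mul_centralBinom_succ m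
    -- `(m+1)^2 C'^2 = 4 (2m+1)^2 C^2`
    have h2 : (m + 1) ^ 2 * (Nat.centralBinom (m + 1)) ^ 2
        = 4 * (2 * m + 1) ^ 2 * (Nat.centralBinom m) ^ 2 := by
      calc (m + 1) ^ 2 * (Nat.centralBinom (m + 1)) ^ 2
          = ((m + 1) * Nat.centralBinom (m + 1)) ^ 2 := by ring
        _ = (2 * (2 * m + 1) * Nat.centralBinom m) ^ 2 := by rw [h1]
        _ = _ := by ring
    have h3 : (2 * m + 1) ^ 2 * (3 * (m + 1) + 1) ≤ 4 * (m + 1) ^ 2 * (3 * m + 1) := by
      nlinarith
    have h4 : 0 < (m + 1) ^ 2 * (3 * m + 1) := by positivity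
    refine Nat.le_of_mul_le_mul_left ?_ h4
    calc (m + 1) ^ 2 * (3 * m + 1) * (Nat.centralBinom (m + 1) ^ 2 * (3 * (m + 1) + 1))
        = ((m + 1) ^ 2 * Nat.centralBinom (m + 1) ^ 2) * ((3 * m + 1) * (3 * (m + 1) + 1)) := by
          ring
      _ = (4 * (2 * m + 1) ^ 2 * (Nat.centralBinom m) ^ 2) *
            ((3 * m + 1) * (3 * (m + 1) + 1)) := by rw [h2]
      _ = 4 * ((2 * m + 1) ^ 2 * (3 * (m + 1) + 1)) *
            ((Nat.centralBinom m) ^ 2 * (3 * m + 1)) := by ring
      _ ≤ 4 * (4 * (m + 1) ^ 2 * (3 * m + 1)) * 16 ^ m := by gcongr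
      _ = (m + 1) ^ 2 * (3 * m + 1) * 16 ^ (m + 1) := by ring

/-- (C4) the middle binomial coefficient -/
theorem choose_mid (m : ℕ) (hm : 1 ≤ m) :
    ((2 * m - 1).choose m) ^ 2 * (2 * m - 1) ≤ 4 ^ (2 * m - 1) := by
  have h1 := central_sq m
  have h2 : Nat.centralBinom m = 2 * (2 * m - 1).choose m := by
    obtain ⟨k, rfl⟩ : ∃ k, m = k + 1 := ⟨m - 1, by omega⟩
    rw [Nat.centralBinom_eq_two_mul_choose]
    have e1 : 2 * (k + 1) = (2 * k + 1) + 1 := by ring
    have e2 : 2 * (k + 1) - 1 = 2 * k + 1 := by omega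
    rw [e2, e1, Nat.choose_succ_succ' (2 * k + 1) k]
    have : (2 * k + 1).choose k = (2 * k + 1).choose (k + 1) := by
      have := Nat.choose_symm_half k
      exact this.symm
    omega
  rw [h2] at h1
  have h3 : (16 : ℕ) ^ m = 4 * 4 ^ (2 * m - 1) := by
    rw [← pow_succ']
    have : 2 * m - 1 + 1 = 2 * m := by omega
    rw [this, show (16 : ℕ) = 4 ^ 2 by norm_num, ← pow_mul]
  rw [h3] at h1
  have h4 : 4 * (((2 * m - 1).choose m) ^ 2 * (2 * m - 1)) ≤ 4 * 4 ^ (2 * m - 1) := by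
    refine le_trans ?_ h1
    have : (2 * m - 1) ≤ (3 * m + 1) := by omega
    calc 4 * (((2 * m - 1).choose m) ^ 2 * (2 * m - 1))
        = (2 * (2 * m - 1).choose m) ^ 2 * (2 * m - 1) := by ring
      _ ≤ (2 * (2 * m - 1).choose m) ^ 2 * (3 * m + 1) := Nat.mul_le_mul_left _ this
  omega

end Pool.Agent.XMC
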